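import Mathlib
import Pool.Agent.H617.SP.H2

/-!
Every sign pattern of the Liouville function of `K[X]` at linear forms and in intervals, for a
finite field `K` of odd characteristic, with explicit and uniform bounds.
-/

open Polynomial

namespace Pool.Agent.Results.MP_a14ce1_nt.EveryPatternOddCharacteristic

open Classical in
/-- The Liouville function of `K[X]`: `(-1) ^ k` if `F` is a nonzero constant times a product of `k`
monic irreducible polynomials, counted with multiplicity, and `0` for `F = 0`. -/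
noncomputable def liouville {K : Type*} [Field K] (F : K[X]) : ℤ :=
  if F = 0 then 0 else (-1) ^ Multiset.card (UniqueFactorizationMonoid.factors F)

/-- Let `p` be an odd prime and `K` a finite field of characteristic `p` with `q` elements.
(1) For all `k ≥ 1` and `D`, all systems of `k` linear forms `a i * f + b i` with coefficients of
degree at most `D`, `a i ≠ 0`, no two proportional, for all signs `ε i` and all
`n ≥ 240 p² k³ (D + 1)` there are at least `q ^ (⌊n / p⌋ - 240 p k³ (D + 1))` monic `f` of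
degree `n` with `λ(a i * f + b i) = ε i` for all `i`. (2) With `L = q ^ m`: for all
`n ≥ 124 p² L³` and all signs `ε h` there are at least `q ^ (⌊n / p⌋ - 124 p L³)` monic `A` of
degree `n` with `λ(A + h) = ε h` for all the `L` polynomials `h` of degree less than `m`. -/
theorem result (p : ℕ) (hp : p.Prime) (hp2 : p ≠ 2) (K : Type*) [Field K] [Fintype K] [CharP K p]
    (q : ℕ) (hq : Fintype.card K = q) :
    (∀ (k D : ℕ) (a b : Fin k → K[X]), 0 < k → (∀ i, a i ≠ 0) →
      (∀ i, (a i).natDegree ≤ D ∧ (b i).natDegree ≤ D) →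
      (∀ i j, i ≠ j → a i * b j - a j * b i ≠ 0) →
      ∀ ε : Fin k → ℤ, (∀ i, ε i = 1 ∨ ε i = -1) →
      ∀ n : ℕ, 240 * p ^ 2 * k ^ 3 * (D + 1) ≤ n →
        ∃ S : Finset K[X], q ^ (n / p - 240 * p * k ^ 3 * (D + 1)) ≤ S.card ∧
          ∀ f ∈ S, f.Monic ∧ f.natDegree = n ∧ ∀ i, liouville (a i * f + b i) = ε i) ∧
    (∀ (m : ℕ) (ε : K[X] → ℤ), (∀ h, ε h = 1 ∨ ε h = -1) →
      ∀ n : ℕ, 124 * p ^ 2 * (q ^ m) ^ 3 ≤ n →
        ∃ S : Finset K[X], q ^ (n / p - 124 * p * (q ^ m) ^ 3) ≤ S.card ∧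
          ∀ A ∈ S, A.Monic ∧ A.natDegree = n ∧
            ∀ h : K[X], h.degree < (m : WithBot ℕ) → liouville (A + h) = ε h) := by
  have : Fact p.Prime := ⟨hp⟩
  subst hq
  have hsgn : ∀ x : ℤ, x = 1 ∨ x = -1 → x = (-1) ^ (if x = 1 then 0 else 1) := by
    intro x hx
    rcases hx with rfl | rfl
    · simp
    · norm_num
  have hcomb : ∀ (x y z : ℕ) (e : ℤ), (-1 : ℤ) ^ z = (-1) ^ (x + y) → e = (-1) ^ y →
      (-1 : ℤ) ^ (x + z) = e := by
    intro x y z e h he
    rw [pow_add, h, pow_add, ← mul_assoc, ← mul_pow, he]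
    simp
  refine ⟨?_, ?_⟩
  · intro k D a b hk ha0 hD hab ε hε n hn
    have hpow : 120 * p * k ^ 3 * (2 * D + 1 + 1) = 240 * p * k ^ 3 * (D + 1) := by ring
    have hpow' : 120 * p ^ 2 * k ^ 3 * (2 * D + 1 + 1) = 240 * p ^ 2 * k ^ 3 * (D + 1) := by ring
    have hdeg : ∀ i, (a i * X ^ (D + 1) + b i).natDegree = (a i).natDegree + (D + 1) ∧
        a i * X ^ (D + 1) + b i ≠ 0 := by
      intro i
      have h1 : (a i * X ^ (D + 1)).natDegree = (a i).natDegree + (D + 1) := by
        rw [natDegree_mul (ha0 i) (pow_ne_zero _ X_ne_zero), natDegree_X_pow]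
      have h2 : (a i * X ^ (D + 1) + b i).natDegree = (a i).natDegree + (D + 1) := by
        rw [natDegree_add_eq_left_of_natDegree_lt, h1]
        rw [h1]
        have := (hD i).2
        omega
      refine ⟨h2, ?_⟩
      intro h
      rw [h, natDegree_zero] at h2
      omega
    obtain ⟨S, hS1, hS2⟩ := Pool.Agent.H617.SP.translated2 p hp2 (2 * D + 1) hk a b (X ^ (D + 1))
      (by rw [natDegree_X_pow]; omega) ha0 (fun i => (hdeg i).2)
      (fun i => by have := (hD i).1; omega)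
      (fun i => by rw [(hdeg i).1]; have := (hD i).1; omega) hab n (by rw [hpow']; exact hn)
      (fun i => Pool.Agent.H617.SP.om (a i * X ^ (D + 1) + b i) + (if ε i = 1 then 0 else 1))
    rw [hpow] at hS1
    refine ⟨S, hS1, fun f hf => ?_⟩
    obtain ⟨h1, h2, h3⟩ := hS2 f hf
    refine ⟨h1, h2, fun i => ?_⟩
    obtain ⟨G, hG1, hG2, -, hG4⟩ := h3 i
    have hne : a i * f + b i ≠ 0 := by
      rw [hG1]; exact mul_ne_zero (hdeg i).2 hG2.ne_zero
    rw [liouville, if_neg hne]
    show (-1 : ℤ) ^ Pool.Agent.H617.SP.om (a i * f + b i) = ε i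
    rw [hG1, Pool.Agent.H617.SP.om_mul (hdeg i).2 hG2.ne_zero]
    exact hcomb _ _ _ _ hG4 (hsgn (ε i) (hε i))
  · intro m ε hε n hn
    obtain ⟨S, hS1, hS2⟩ := Pool.Agent.H617.SP.intervals p hp2 m n hn
      (fun h : K[X] => if ε h = 1 then 0 else 1)
    refine ⟨S, hS1, fun f hf => ?_⟩
    obtain ⟨h1, h2, h3⟩ := hS2 f hf
    refine ⟨h1, h2, fun h hh => ?_⟩
    obtain ⟨h4, h5⟩ := h3 h hh
    rw [liouville, if_neg h4]
    show (-1 : ℤ) ^ Pool.Agent.H617.SP.om (f + h) = ε h
    rw [h5, ← hsgn (ε h) (hε h)]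

end Pool.Agent.Results.MP_a14ce1_nt.EveryPatternOddCharacteristic
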