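import Pool.Agent.H614.CW.Fin

/-!
# Chowla products and sign patterns with positive definite weights

Let `λ` be the Liouville function. For all orders `k` the products `P(n) = λ(a_1 n + b_1) ... λ(a_k n + b_k)` and the
sign patterns are studied along the orbits `U^(F(n)) v` of unitary operators, with the weights `w(F(n))` for positive
definite functions `w`, and for the differences `F(n)` in sets of integers of positive density, where `F` is a
polynomial with integer coefficients.

From the starting files: the independence of the products from polynomial phases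
(`Pool.Graph.R_pool_sql_team_seeded_620a6dc7`), the odd orders (`Pool.Graph.R_pool_sql_team_seeded_63374d34`), the bound
for the even orders (`Pool.Graph.R_pool_sql_team_seeded_9f66d723`). From Mathlib: `ArithmeticFunction.cardFactors n`, the
number of the prime factors of `n` with multiplicity; `H ≃ₗᵢ[ℂ] H`, the group of the unitary operators.
-/

set_option autoImplicit false

namespace Pool.Agent.Results.MP_a14ce1_nt.PositiveDefiniteWeights

open Finset Filter Topology

/-- The Liouville function. -/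
def lam (n : ℕ) : ℤ := (-1) ^ ArithmeticFunction.cardFactors n

/-- The product `λ(a_1 n + b_1) ... λ(a_k n + b_k)`. -/
def P {k : ℕ} (a b : Fin k → ℕ) (n : ℕ) : ℤ := ∏ i, lam (a i * n + b i)

/-- The linear forms `a_i n + b_i` have `a_i ≥ 1` and are pairwise not proportional. -/
def Forms {k : ℕ} (a b : Fin k → ℕ) : Prop := (∀ i, 1 ≤ a i) ∧ ∀ i j, i ≠ j → a i * b j ≠ a j * b i

/-- The set of the `n` with `λ(a_i n + b_i) = s_i` for all `i`. -/
def Pattern {k : ℕ} (a b : Fin k → ℕ) (s : Fin k → ℤ) : Set ℕ := {n | ∀ i, lam (a i * n + b i) = s i}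

/-- The set of the `n` with `P(n) = η`. -/
def Level {k : ℕ} (a b : Fin k → ℕ) (η : ℤ) : Set ℕ := {n | P a b n = η}

/-- `s` is a pattern of signs. -/
def Signs {k : ℕ} (s : Fin k → ℤ) : Prop := ∀ i, s i = 1 ∨ s i = -1

open Classical in
/-- The indicator function of a set. -/
noncomputable def ind (S : Set ℕ) (n : ℕ) : ℝ := if n ∈ S then 1 else 0

/-- The logarithmic average `(1 / log X) ∑_{n ≤ X} g(n) / n`. -/
noncomputable def logMean {H : Type} [AddCommGroup H] [Module ℝ H] (g : ℕ → H) (X : ℕ) : H :=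
  (Real.log X)⁻¹ • ∑ n ∈ Icc 1 X, ((n : ℝ)⁻¹) • g n

/-- The function `w` on the integers is positive definite: the sums `∑ c_i conj(c_j) w(i - j)` are real and not
negative. -/
def PositiveDefinite (w : ℤ → ℝ) : Prop :=
  ∀ (N : ℕ) (c : ℕ → ℂ), ∃ t : ℝ, 0 ≤ t ∧
    ∑ i ∈ range N, ∑ j ∈ range N, c i * (starRingEnd ℂ) (c j) * ((w ((i : ℤ) - j) : ℝ) : ℂ) = t

/-- The number `γ_k`: zero for odd `k`, and `1 - 1 / (2^(k-1) - 1)` for even `k` (so `γ_2 = 0` and `γ_4 = 6/7`). -/
noncomputable def gam (k : ℕ) : ℝ := if Odd k then 0 else 1 - 1 / (2 ^ (k - 1) - 1)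

/-- The vector `v` is orthogonal to all the periodic vectors of `U`. -/
def NoPeriodicPart {H : Type} [NormedAddCommGroup H] [InnerProductSpace ℂ H] (U : H ≃ₗᵢ[ℂ] H) (v : H) : Prop :=
  ∀ q : ℕ, 1 ≤ q → ∀ y : H, (U ^ q) y = y → inner ℂ y v = (0 : ℂ)

/-- The polynomial `F` has roots modulo all the integers `Q ≥ 1`, and a positive leading coefficient. -/
def Intersective (F : Polynomial ℤ) : Prop :=
  0 < F.leadingCoeff ∧ ∀ Q : ℕ, 1 ≤ Q → ∃ r : ℤ, (Q : ℤ) ∣ F.eval r

/-- Recurrence along `S`: for every `δ > 0` there are `M` and `κ > 0` such that every set `A` of at least `δN` integers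
in an interval of length `N ≥ M` contains at least `κN` pairs `x, x + F(n)` for some `n ∈ S` with `n ≤ M` and
`F(n) > 0`. -/
def Recurrence (S : Set ℕ) (F : Polynomial ℤ) : Prop :=
  ∀ δ : ℝ, 0 < δ → ∃ (M : ℕ) (κ : ℝ), 0 < κ ∧ ∀ N : ℕ, M ≤ N → ∀ (u : ℤ) (A : Finset ℤ),
    A ⊆ Ioc u (u + N) → δ * N ≤ A.card → ∃ n : ℕ, 1 ≤ n ∧ n ≤ M ∧ n ∈ S ∧ 0 < F.eval (n : ℤ) ∧
      κ * N ≤ (A.filter fun x => x + F.eval (n : ℤ) ∈ A).card

open Pool.Agent.Y958.U (FF) in
lemma P_FF {k : ℕ} (a b : Fin k → ℕ) (n : ℕ) : ((P a b n : ℤ) : ℝ) = FF a b n := by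
  unfold P lam Pool.Agent.Y958.U.FF
  push_cast
  rfl

lemma gam_eq (k : ℕ) : gam k = Pool.Agent.H614.CW.gam k := rfl

lemma ind_eq {k : ℕ} (a b : Fin k → ℕ) (s : Fin k → ℤ) (n : ℕ) :
    ind (Pattern a b s) n = Pool.Agent.H614.CW.ip a b s n := rfl

lemma logMean_eq {H : Type} [NormedAddCommGroup H] [InnerProductSpace ℂ H] (h : ℕ → ℝ) (V : ℕ → H) (X : ℕ) :
    logMean (fun n => h n • V n) X = (1 / (Real.log X : ℂ)) • ∑ n ∈ Icc 1 X, ((h n / n : ℝ) : ℂ) • V n := by
  unfold logMean
  have h1 : (1 / (Real.log X : ℂ)) = (((Real.log X)⁻¹ : ℝ) : ℂ) := by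
    push_cast
    rw [one_div]
  rw [h1, Complex.coe_smul]
  congr 1
  refine sum_congr rfl fun n _ => ?_
  rw [Complex.coe_smul, smul_smul]
  congr 1
  rw [div_eq_inv_mul]

lemma logMean_real (g : ℕ → ℝ) (X : ℕ) : logMean g X = (∑ n ∈ Icc 1 X, g n / n) / Real.log X := by
  unfold logMean
  rw [smul_eq_mul, inv_mul_eq_div]
  congr 1
  refine sum_congr rfl fun n _ => ?_
  rw [smul_eq_mul, inv_mul_eq_div]

/-- Let `F` be a polynomial with integer coefficients which is not constant, and let `a_i n + b_i` be linear forms with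
`a_i ≥ 1`, `b_i ≥ 0`.

(1) If `k` is odd or `k = 2` and the forms are pairwise not proportional, then for all unitary operators `U` and vectors
`v` the logarithmic averages of `P(n) U^(F(n)) v` tend to zero in the norm. For `k ≤ 3` the same holds for
`(1_{pattern s}(n) - 2^(-k)) U^(F(n)) v`: all the sign patterns are equidistributed along the orbit.

(2) For every `k`, without a condition on the forms, the logarithmic averages of `P(n) U^(F(n)) v` and of
`1_{pattern s}(n) U^(F(n)) v` tend to zero in the norm if the vector `v` is orthogonal to the periodic vectors of `U`.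

(3) Let the forms be pairwise not proportional. For every `k ≥ 1` and every positive definite function `w ≥ 0` the
logarithmic average of `P(n) w(F(n))` is at most `γ_k` times the one of `w(F(n))` in absolute value, up to `ε`.

(4) For every sign pattern of length four the logarithmic average of `1_{pattern s}(n) w(F(n))` is at least one seventh
of the expected value, the 16th part of the one of `w(F(n))`, up to `ε`.

(5) If `F` has roots modulo all the integers and a positive leading coefficient, then there is recurrence for the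
differences `F(n)` along the sets `{n : P(n) = 1}` and `{n : P(n) = -1}` for all `k ≥ 1`, and along the sets of the `n`
with a given sign pattern of length at most four. -/
theorem result (F : Polynomial ℤ) (hF : 1 ≤ F.natDegree) :
    (∀ (H : Type) [NormedAddCommGroup H] [InnerProductSpace ℂ H] (U : H ≃ₗᵢ[ℂ] H) (v : H) (k : ℕ)
      (a b : Fin k → ℕ), Forms a b →
      ((Odd k ∨ k = 2) → Tendsto (logMean fun n => (P a b n : ℝ) • (U ^ (F.eval (n : ℤ))) v) atTop (𝓝 0)) ∧
      (k ≤ 3 → ∀ s, Signs s →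
        Tendsto (logMean fun n => (ind (Pattern a b s) n - 1 / 2 ^ k) • (U ^ (F.eval (n : ℤ))) v) atTop (𝓝 0))) ∧
    (∀ (H : Type) [NormedAddCommGroup H] [InnerProductSpace ℂ H] [CompleteSpace H] (U : H ≃ₗᵢ[ℂ] H) (v : H),
      NoPeriodicPart U v → ∀ (k : ℕ) (a b : Fin k → ℕ), (∀ i, 1 ≤ a i) →
      Tendsto (logMean fun n => (P a b n : ℝ) • (U ^ (F.eval (n : ℤ))) v) atTop (𝓝 0) ∧
      ∀ s, Signs s → Tendsto (logMean fun n => ind (Pattern a b s) n • (U ^ (F.eval (n : ℤ))) v) atTop (𝓝 0)) ∧
    (∀ w : ℤ → ℝ, (∀ m, 0 ≤ w m) → PositiveDefinite w →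
      (∀ (k : ℕ) (a b : Fin k → ℕ), 1 ≤ k → Forms a b → ∀ ε : ℝ, 0 < ε → ∀ᶠ X : ℕ in atTop,
        |logMean (fun n => P a b n * w (F.eval (n : ℤ))) X| ≤ gam k * logMean (fun n => w (F.eval (n : ℤ))) X + ε) ∧
      (∀ (a b : Fin 4 → ℕ), Forms a b → ∀ s, Signs s → ∀ ε : ℝ, 0 < ε → ∀ᶠ X : ℕ in atTop,
        (1 / 7) * ((1 / 16) * logMean (fun n => w (F.eval (n : ℤ))) X) - ε ≤
          logMean (fun n => ind (Pattern a b s) n * w (F.eval (n : ℤ))) X)) ∧
    (Intersective F →
      (∀ (k : ℕ) (a b : Fin k → ℕ), 1 ≤ k → Forms a b → Recurrence (Level a b 1) F ∧ Recurrence (Level a b (-1)) F) ∧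
      (∀ (k : ℕ) (a b : Fin k → ℕ), k ≤ 4 → Forms a b → ∀ s, Signs s → Recurrence (Pattern a b s) F)) := by
  refine ⟨?_, ?_, ?_, ?_⟩
  · intro H _ _ U v k a b hab
    refine ⟨fun hk => ?_, fun hk s hs => ?_⟩
    · refine (Pool.Agent.H614.CW.uni1 hk a b hab F hF U v).congr fun X => ?_
      rw [logMean_eq]
      simp only [P_FF]
    · refine (Pool.Agent.H614.CW.uni3 hk a b hab s hs F hF U v).congr fun X => ?_
      rw [logMean_eq]
      rfl
  · intro H _ _ _ U v hv k a b ha
    refine ⟨?_, fun s hs => ?_⟩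
    · refine (Pool.Agent.H614.CW.uni2 a b ha F hF U v hv).congr fun X => ?_
      rw [logMean_eq]
      simp only [P_FF]
    · refine (Pool.Agent.H614.CW.uni4 a b ha s hs F hF U v hv).congr fun X => ?_
      rw [logMean_eq]
      rfl
  · intro w hw0 hw
    refine ⟨fun k a b hk hab ε hε => ?_, fun a b hab s hs ε hε => ?_⟩
    · filter_upwards [Pool.Agent.H614.CW.part2 hk a b hab F hF w hw0 hw ε hε,
        Pool.Agent.H614.CW.log_tend.eventually_gt_atTop 0] with X hX h0
      rw [logMean_real, logMean_real, abs_div, abs_of_pos h0, div_le_iff₀ h0, gam_eq]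
      simp only [P_FF]
      refine hX.trans (le_of_eq ?_)
      field_simp
    · filter_upwards [Pool.Agent.H614.CW.part4b a b hab s hs F hF w hw0 hw ε hε,
        Pool.Agent.H614.CW.log_tend.eventually_gt_atTop 0] with X hX h0
      rw [logMean_real, logMean_real, le_div_iff₀ h0]
      simp only [ind_eq]
      refine le_trans (le_of_eq ?_) hX
      field_simp
  · intro hI
    refine ⟨fun k a b hk hab => ?_, fun k a b hk hab s hs => ?_⟩
    · have hc : 0 < (1 - Pool.Agent.H614.CW.gam k) / 2 := by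
        have := Pool.Agent.H614.CW.gam_le_one k hk
        linarith
      refine ⟨fun δ hδ => ?_, fun δ hδ => ?_⟩
      · exact Pool.Agent.H614.CW.recurrence _ _ hc F hF hI.1 hI.2
          (Pool.Agent.H614.CW.lower_level hk a b hab F hF 1 (Or.inl rfl)) δ hδ
      · exact Pool.Agent.H614.CW.recurrence _ _ hc F hF hI.1 hI.2
          (Pool.Agent.H614.CW.lower_level hk a b hab F hF (-1) (Or.inr rfl)) δ hδ
    · intro δ hδ
      exact Pool.Agent.H614.CW.recurrence _ _ (by norm_num) F hF hI.1 hI.2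
        (Pool.Agent.H614.CW.lower_pat hk a b hab s hs F hF) δ hδ

end Pool.Agent.Results.MP_a14ce1_nt.PositiveDefiniteWeights
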