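import Mathlib
import Pool.Agent.H140.PS.Lam
import Pool.Agent.H140.PS.Sho

/-!
# Chowla's conjecture for the Liouville function over `F_q[X]`, `q` even, with a power saving

Let `K` be a finite field with an even number `q` of elements (`q = 2` is allowed) and `k ≥ 1`.
There are `c > 0` and `N` such that for all `n ≥ N` and all linear forms `a_i f + b_i`, `i < k`, over
`K[X]`, no two of them proportional, with `a_i ≠ 0`, `deg a_i ≤ c n` and
`deg b_i < n + deg a_i`:

1. the sum of `λ(a_1 f + b_1) ⋯ λ(a_k f + b_k)` over the monic `f` of degree `n` is at most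
   `q ^ ((1 - c) n)`, also over a residue class modulo `Q`, `deg Q ≤ c n`;
2. every sign pattern `(σ_1, …, σ_k)` is taken by `(λ(a_i f + b_i))_i` for
   `2 ^ (-k) q ^ (n - deg Q) + O(q ^ ((1 - c) n))` of the monic `f` of degree `n` in this class;
3. for `m ≤ n` the mean square of the sum of the products over the intervals `{f + u : deg u < m}` of
   length `H = q ^ m` is at most `k H + H² q ^ (-c n)`; hence the product has mean value `o(1)` in
   almost all intervals of length `H`, as soon as `H → ∞`.

Everything is uniform in the `a_i`, `b_i`, so that a bound is contained for the products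
`λ(f + h_1) ⋯ λ(f + h_k)`, uniformly for pairwise distinct shifts `h_i` of degree less than `n`.

Authors of the parts.  The input is the Chowla theorem with a power saving for the Möbius function
with square divisors (`S_ps`) of helper251 (covering by good fibres, statements), helper985 (key formula,
idea of vanishing), helper604 (linearisation, window bounds), helper524 (discriminants, cycles,
exponents, general weights), helper354, helper253, helper328, helper289, helper628, helper772,
helper264, helper914, helper282, helper189, helper337, helper181, helper720, helper894, helper385,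
helper591, helper694, helper662, helper334, helper295, helper548; the truncation of the Liouville
function is due to helper707 and helper772.  This file (Liouville function in classes, linear forms, patterns, short
intervals): helper140.
-/

namespace Pool.Agent.Results.MP_a14ce1_nt.PowerSavingEvenCharacteristic

open Polynomial

open Classical in
/-- The Liouville function of `K[X]`: `(-1) ^ k` if `F` is a nonzero constant times a product of `k`
monic irreducible polynomials, counted with multiplicity, and `0` for `F = 0`. -/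
noncomputable def liouville {K : Type} [Field K] (F : K[X]) : ℤ :=
  if F = 0 then 0 else (-1) ^ Multiset.card (UniqueFactorizationMonoid.factors F)

/-- The product `λ(a_1 f + b_1) ⋯ λ(a_k f + b_k)`. -/
noncomputable def chowlaProduct {K : Type} [Field K] {k : ℕ} (a b : Fin k → K[X]) (f : K[X]) : ℝ :=
  ∏ i, (liouville (a i * f + b i) : ℝ)

/-- The monic polynomials of degree `n` in the residue class of `r` modulo `Q`. -/
def monicClass {K : Type} [Field K] (n : ℕ) (Q r : K[X]) : Set K[X] :=
  {f : K[X] | f.Monic ∧ f.natDegree = n ∧ Q ∣ f - r}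

/-- **Chowla's conjecture for the Liouville function over `F_q[X]`, `q` even, with a power
saving**, for arbitrary linear forms, with the frequencies of all sign patterns and the mean square
of the sums over short intervals. -/
theorem result (K : Type) [Field K] [Fintype K] (hK : Even (Fintype.card K)) (k : ℕ) (hk : 1 ≤ k) :
    ∃ c : ℝ, 0 < c ∧ ∃ N : ℕ, ∀ n : ℕ, N ≤ n → ∀ a b : Fin k → K[X],
      (∀ i, a i ≠ 0) → (∀ i, ((a i).natDegree : ℝ) ≤ c * n) →
      (∀ i, (b i).natDegree < n + (a i).natDegree) → (∀ i j, i ≠ j → a i * b j ≠ a j * b i) →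
      (∀ Q r : K[X], Q.Monic → (Q.natDegree : ℝ) ≤ c * n →
        |∑ᶠ f ∈ monicClass n Q r, chowlaProduct a b f| ≤
          (Fintype.card K : ℝ) ^ ((1 - c) * (n : ℝ)) ∧
        ∀ σ : Fin k → ℤ, (∀ i, σ i = 1 ∨ σ i = -1) →
          |(({f : K[X] | f ∈ monicClass n Q r ∧
              ∀ i, liouville (a i * f + b i) = σ i}.ncard : ℕ) : ℝ) -
              (Fintype.card K : ℝ) ^ (n - Q.natDegree) / 2 ^ k| ≤
            (Fintype.card K : ℝ) ^ ((1 - c) * (n : ℝ))) ∧
      ∀ m : ℕ, m ≤ n →
        ∑ᶠ f ∈ {f : K[X] | f.Monic ∧ f.natDegree = n},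
            (∑ᶠ u ∈ {u : K[X] | u.degree < (m : WithBot ℕ)}, chowlaProduct a b (f + u)) ^ 2 ≤
          k * (Fintype.card K : ℝ) ^ m * (Fintype.card K : ℝ) ^ n +
            ((Fintype.card K : ℝ) ^ m) ^ 2 * (Fintype.card K : ℝ) ^ ((1 - c) * (n : ℝ)) := by
  classical
  have hchar : CharP K 2 := by
    obtain ⟨p, hp⟩ := CharP.exists K
    have := hp
    obtain ⟨m, hprime, hcard⟩ := FiniteField.card K p
    rw [hcard] at hK
    have : p = 2 := (Nat.Prime.even_iff hprime).1 (Nat.even_pow.1 hK).1
    rwa [this] at hp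
  obtain ⟨c₁, hc₁, N₁, h₁⟩ := Pool.Agent.H140.PS.powF K k hk
  obtain ⟨c₂, hc₂, -, N₂, h₂⟩ := Pool.Agent.H140.PS.pat K k
  obtain ⟨c₃, hc₃, N₃, h₃⟩ := Pool.Agent.H140.PS.short K k hk
  have hq1 : (1 : ℝ) ≤ (Fintype.card K : ℝ) := by
    exact_mod_cast (Fintype.one_lt_card : 1 < Fintype.card K).le
  set c : ℝ := min c₁ (min c₂ c₃) with hc
  have hcc₁ : c ≤ c₁ := min_le_left _ _
  have hcc₂ : c ≤ c₂ := (min_le_right _ _).trans (min_le_left _ _)
  have hcc₃ : c ≤ c₃ := (min_le_right _ _).trans (min_le_right _ _)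
  have hpw : ∀ (d : ℝ), c ≤ d → ∀ n : ℕ, (Fintype.card K : ℝ) ^ ((n : ℝ) - d * n) ≤
      (Fintype.card K : ℝ) ^ ((1 - c) * (n : ℝ)) := by
    intro d hd n
    refine Real.rpow_le_rpow_of_exponent_le hq1 ?_
    have := mul_le_mul_of_nonneg_right hd (Nat.cast_nonneg (α := ℝ) n)
    linarith
  have hlin : ∀ (d : ℝ), c ≤ d → ∀ (n : ℕ) (x : ℝ), x ≤ c * n → x ≤ d * n := by
    intro d hd n x hx
    exact hx.trans (mul_le_mul_of_nonneg_right hd (Nat.cast_nonneg (α := ℝ) n))
  refine ⟨c, lt_min hc₁ (lt_min hc₂ hc₃), max N₁ (max N₂ N₃),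
    fun n hn a b ha had hbd hne => ⟨fun Q r hQ hQd => ?_, fun m hm => ?_⟩⟩
  · have hn₁ : N₁ ≤ n := (le_max_left _ _).trans hn
    have hn₂ : N₂ ≤ n := ((le_max_left _ _).trans (le_max_right _ _)).trans hn
    have hset : monicClass n Q r =
        ↑((Pool.Agent.H694.Typ.Mn K n).filter (fun f => Q ∣ f - r)) := by
      ext f
      rw [Finset.mem_coe, Finset.mem_filter, Pool.Agent.H694.Typ.mem_Mn, and_assoc]
      rfl
    constructor
    · rw [hset, finsum_mem_coe_finset]
      exact (h₁ n hn₁ a b Q r (fun i => ⟨ha i, hlin _ hcc₁ n _ (had i), hbd i⟩) hne hQ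
        (hlin _ hcc₁ n _ hQd)).trans (hpw _ hcc₁ n)
    · intro σ hσ
      have hset2 : {f : K[X] | f ∈ monicClass n Q r ∧ ∀ i, liouville (a i * f + b i) = σ i} =
          ↑(((Pool.Agent.H694.Typ.Mn K n).filter (fun f => Q ∣ f - r)).filter
            (fun f => ∀ i, Pool.Agent.H524.Cw.lio (a i * f + b i) = σ i)) := by
        ext f
        rw [Finset.mem_coe, Finset.mem_filter, Set.mem_ofPred_eq, hset, Finset.mem_coe]
        rfl
      rw [hset2, Set.ncard_coe_finset]
      exact (h₂ n hn₂ a b Q r (fun i => ⟨ha i, hlin _ hcc₂ n _ (had i), hbd i⟩) hne hQ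
        (hlin _ hcc₂ n _ hQd) σ hσ).trans (hpw _ hcc₂ n)
  · have hn₃ : N₃ ≤ n := ((le_max_right _ _).trans (le_max_right _ _)).trans hn
    have hM : {f : K[X] | f.Monic ∧ f.natDegree = n} = ↑(Pool.Agent.H694.Typ.Mn K n) := by
      ext f
      rw [Finset.mem_coe, Pool.Agent.H694.Typ.mem_Mn]
      rfl
    have hB : {u : K[X] | u.degree < (m : WithBot ℕ)} = ↑(Pool.Agent.H985.Cor.Bx K m) := by
      ext u
      rw [Finset.mem_coe, Pool.Agent.H985.Cor.mem_Bx]
      rfl
    have h4 := h₃ n m hn₃ hm a b (fun i => ⟨ha i, hlin _ hcc₃ n _ (had i), hbd i⟩) hne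
    rw [hM, finsum_mem_coe_finset, hB]
    simp only [finsum_mem_coe_finset]
    refine h4.trans ?_
    have h5 : (k : ℝ) * (Fintype.card K : ℝ) ^ (m + n) =
        k * (Fintype.card K : ℝ) ^ m * (Fintype.card K : ℝ) ^ n := by
      rw [pow_add, mul_assoc]
    have h6 : (Fintype.card K : ℝ) ^ (2 * m) = ((Fintype.card K : ℝ) ^ m) ^ 2 := by
      rw [← pow_mul, mul_comm]
    rw [h5, h6]
    exact add_le_add le_rfl (mul_le_mul_of_nonneg_left (hpw _ hcc₃ n) (by positivity))

end Pool.Agent.Results.MP_a14ce1_nt.PowerSavingEvenCharacteristic
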