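import Pool.Agent.H569.SS18

/-!
# Chowla products of every order at linear forms in dense sets of integers and of primes

Outside one set `E` of scales of logarithmic density zero, every Chowla product
`F(n) = λ(a₁ n + b₁) ⋯ λ(aₖ n + bₖ)` with non-proportional forms is, on `[1, N]`, the sum of a
function bounded by `ρ(k)` and of a function all whose exponential sums are `o(N)`; `ρ(k) = 0` for
odd `k` and for `k = 2`, and `ρ(k) = 1 - 2^(1-k)` for even `k ≥ 4`. So `F` has bilinear bounds with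
arbitrary complex weights on arbitrary finite sets, and systems of Chowla products at linear forms in
variables which range over arbitrary dense sets of integers or of primes take all values.
-/

set_option autoImplicit false

namespace Pool.Agent.Results.MP_a14ce1_nt.SystemsInDenseSets

open Finset Filter

/-- The Liouville function. -/
noncomputable def lam (n : ℕ) : ℝ := (-1) ^ ArithmeticFunction.cardFactors n

/-- The product `λ(a₁ n + b₁) ⋯ λ(aₖ n + bₖ)`. -/
noncomputable def chowla {k : ℕ} (a b : Fin k → ℕ) (n : ℕ) : ℝ := ∏ j, lam (a j * n + b j)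

/-- The additive character `e(x) = exp(2 π i x)`. -/
noncomputable def e (x : ℝ) : ℂ := Complex.exp (2 * Real.pi * x * Complex.I)

/-- `ρ(k) = 0` for odd `k` and for `k = 2`, `ρ(k) = 1 - 2^(1-k)` for even `k ≥ 4`. -/
noncomputable def rho (k : ℕ) : ℝ := if Odd k ∨ k = 2 then 0 else 1 - 1 / 2 ^ (k - 1)

/-- The forms `a j n + b j` have positive leading coefficients and are pairwise non-proportional. -/
def Adm {k : ℕ} (a b : Fin k → ℕ) : Prop :=
  1 ≤ k ∧ (∀ j, 1 ≤ a j) ∧ ∀ i j, i ≠ j → a i * b j ≠ a j * b i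

/-- The affine form `c · x + γ`. -/
def form {m : ℕ} (c : Fin m → ℤ) (γ : ℤ) (x : Fin m → ℤ) : ℤ := ∑ v, c v * x v + γ

/-- The size `N / log N` or `N` of the primes (`t = true`) or of the integers up to `N`. -/
noncomputable def size (N : ℕ) (t : Bool) : ℝ := if t = true then N / Real.log N else N

open Classical in
/-- The points `x` of `A 1 × ⋯ × A m` such that for every `f` the Chowla product number `f` at
`form (c f) (γ f) x` has the value `∏ j, σ f j`, and its factors have the values `σ f j` if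
`full f = true`. -/
noncomputable def hits {m s : ℕ} (full : Fin s → Bool) (k : Fin s → ℕ) (a b : ∀ f, Fin (k f) → ℕ)
    (σ : ∀ f, Fin (k f) → ℝ) (c : Fin s → Fin m → ℤ) (γ : Fin s → ℤ) (A : Fin m → Finset ℤ) :
    Finset (Fin m → ℤ) :=
  (Fintype.piFinset A).filter fun x => ∀ f,
    chowla (a f) (b f) (form (c f) (γ f) x).toNat = ∏ j, σ f j ∧
    (full f = true → ∀ j, lam (a f j * (form (c f) (γ f) x).toNat + b f j) = σ f j)

/-- The number of values in the target: `2^k` rows of `k` signs, or `2` values of the product. -/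
noncomputable def rows (full : Bool) (k : ℕ) : ℝ := if full = true then 2 ^ k else 2

open Classical in
theorem result : ∃ E : Set ℕ,
    Tendsto (fun X : ℕ => (∑ N ∈ Icc 1 X, if N ∈ E then (1 : ℝ) / N else 0) / Real.log X)
      atTop (nhds 0) ∧
    -- (1) structure and (2) bilinear bound
    (∀ (k : ℕ) (a b : Fin k → ℕ), Adm a b → ∀ ε : ℝ, 0 < ε → ∃ N₀ : ℕ, ∀ N : ℕ, N₀ ≤ N → N ∉ E →
      (∃ w : ℕ → ℝ, (∀ n, |w n| ≤ rho k) ∧
        ∀ θ : ℝ, ‖∑ n ∈ Icc 1 N, ((chowla a b n - w n : ℝ) : ℂ) * e (θ * n)‖ ≤ ε * N) ∧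
      ∀ (A₁ A₂ : Finset ℤ) (u v : ℤ → ℂ) (α β γ : ℤ), α ≠ 0 → β ≠ 0 →
        ‖∑ z ∈ (A₁ ×ˢ A₂).filter
            (fun z : ℤ × ℤ => 1 ≤ α * z.1 + β * z.2 + γ ∧ α * z.1 + β * z.2 + γ ≤ N),
          u z.1 * v z.2 * (chowla a b (α * z.1 + β * z.2 + γ).toNat : ℂ)‖ ≤
        rho k * ∑ z ∈ (A₁ ×ˢ A₂).filter
            (fun z : ℤ × ℤ => 1 ≤ α * z.1 + β * z.2 + γ ∧ α * z.1 + β * z.2 + γ ≤ N),
          ‖u z.1‖ * ‖v z.2‖ +
        ε * (N * (Real.sqrt (∑ x ∈ A₁, ‖u x‖ ^ 2) * Real.sqrt (∑ y ∈ A₂, ‖v y‖ ^ 2)))) ∧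
    -- (3) systems of forms in dense sets of integers and of primes
    (∀ (m s : ℕ) (t : Fin m → Bool) (full : Fin s → Bool) (k : Fin s → ℕ)
      (a b : ∀ f, Fin (k f) → ℕ) (σ : ∀ f, Fin (k f) → ℝ),
      (∀ f, Adm (a f) (b f) ∧ (full f = true → k f ≤ 4) ∧ ∀ j, σ f j = 1 ∨ σ f j = -1) →
      ∀ ε : ℝ, 0 < ε → ∃ N₀ : ℕ, ∀ N : ℕ, N₀ ≤ N → N ∉ E →
      ∀ (c : Fin s → Fin m → ℤ) (γ : Fin s → ℤ) (A : Fin m → Finset ℤ),
        (∀ i, ∀ x ∈ A i, 1 ≤ x ∧ x ≤ N ∧ (t i = true → x.toNat.Prime)) →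
        (∀ f, ∃ i j, i ≠ j ∧ c f i ≠ 0 ∧ c f j ≠ 0 ∧ ∀ f', f' ≠ f → c f' i = 0 ∨ c f' j = 0) →
        (∀ f, ∀ x ∈ Fintype.piFinset A, 1 ≤ form (c f) (γ f) x ∧ form (c f) (γ f) x ≤ N) →
        (∏ f, (1 - rho (k f)) / rows (full f) (k f)) * ∏ i, ((A i).card : ℝ) -
            ε * ∏ i, size N (t i) ≤ ((hits full k a b σ c γ A).card : ℝ) ∧
        ((hits full k a b σ c γ A).card : ℝ) ≤
          (∏ f, (1 + rho (k f)) / rows (full f) (k f)) * ∏ i, ((A i).card : ℝ) +
            ε * ∏ i, size N (t i)) := by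
  obtain ⟨E, hE, h⟩ := Pool.Agent.H569.SS.one_setG
  refine ⟨E, hE, ?_, ?_⟩
  · intro k a b hab ε hε
    obtain ⟨N₀, h1⟩ := h k a b hab.1 hab.2.1 hab.2.2 (ε / 2) (by linarith)
    refine ⟨N₀, fun N hN hNE => ?_⟩
    obtain ⟨w, h2, h3⟩ := Pool.Agent.H569.SS.clip hab.1 (h1 N hN hNE)
    have h3' : ∀ θ : ℝ, ‖∑ n ∈ Icc 1 N, ((Pool.Agent.H569.SS.FF a b n - w n : ℝ) : ℂ) *
        Pool.Agent.X23.CS.e (θ * n)‖ ≤ ε * N := fun θ => (h3 θ).trans (le_of_eq (by ring))
    refine ⟨⟨w, h2, h3'⟩, ?_⟩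
    obtain ⟨w', h4, h5⟩ := h1 N hN hNE
    intro A₁ A₂ u v α β γ hα hβ
    have h6 := Pool.Agent.H569.SS.bil_gen (Pool.Agent.H569.SS.FF a b) w' (rho k) (ε / 2) (by linarith) N h4 h5
      A₁ A₂ u v α β γ hα hβ
    refine h6.trans (le_of_eq ?_)
    ring
  · intro m s t full k a b σ hf ε hε
    obtain ⟨g, hg⟩ : ∃ g : Fin s → ℕ → ℝ, ∀ f n, g f n =
        if full f = true then ∏ j, (1 + σ f j * Pool.Agent.X23.CS.lam (a f j * n + b f j)) / 2
        else (1 + (∏ j, σ f j) * Pool.Agent.H569.SS.FF (a f) (b f) n) / 2 := ⟨_, fun _ _ => rfl⟩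
    have hσ1 : ∀ f j, |σ f j| = 1 := by
      intro f j
      rcases (hf f).2.2 j with h1 | h1 <;> rw [h1] <;> norm_num
    have hσp : ∀ f, |∏ j, σ f j| = 1 := by
      intro f
      rw [abs_prod]
      exact prod_eq_one fun j _ => hσ1 f j
    have hL : ∀ f, Pool.Agent.H569.SS.Lvl E (g f) ((1 - rho (k f)) / rows (full f) (k f))
        ((1 + rho (k f)) / rows (full f) (k f)) := by
      intro f
      obtain ⟨⟨hk, ha, hab⟩, h4, -⟩ := hf f
      unfold rows
      by_cases hfull : full f = true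
      · rw [if_pos hfull]
        have h1 : g f = fun n => ∏ j, (1 + σ f j * Pool.Agent.X23.CS.lam (a f j * n + b f j)) / 2 := by
          funext n
          rw [hg, if_pos hfull]
        rw [h1]
        exact Pool.Agent.H569.SS.lvl_full E h hk (h4 hfull) (a f) (b f) ha hab (σ f) (hσ1 f)
      · rw [if_neg hfull]
        have h1 : g f = fun n => (1 + (∏ j, σ f j) * Pool.Agent.H569.SS.FF (a f) (b f) n) / 2 := by
          funext n
          rw [hg, if_neg hfull]
        rw [h1]
        exact Pool.Agent.H569.SS.lvl_prod E hk (a f) (b f) (h (k f) (a f) (b f) hk ha hab) _ (hσp f)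
    have hlpm : ∀ n : ℕ, lam n = 1 ∨ lam n = -1 := fun n => neg_one_pow_eq_or _ _
    have hval : ∀ f n, g f n = if (chowla (a f) (b f) n = ∏ j, σ f j ∧
        (full f = true → ∀ j, lam (a f j * n + b f j) = σ f j)) then 1 else 0 := by
      intro f n
      rw [hg]
      by_cases hfull : full f = true
      · rw [if_pos hfull]
        by_cases h1 : ∀ j, lam (a f j * n + b f j) = σ f j
        · rw [if_pos ⟨prod_congr rfl fun j _ => h1 j, fun _ => h1⟩]
          refine prod_eq_one fun j _ => ?_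
          have h2 : Pool.Agent.X23.CS.lam (a f j * n + b f j) = σ f j := h1 j
          rw [h2]
          rcases (hf f).2.2 j with h3 | h3 <;> rw [h3] <;> norm_num
        · rw [if_neg fun h2 => h1 (h2.2 hfull)]
          push Not at h1
          obtain ⟨j, h1⟩ := h1
          refine prod_eq_zero (mem_univ j) ?_
          have h2 : Pool.Agent.X23.CS.lam (a f j * n + b f j) = lam (a f j * n + b f j) := rfl
          rw [h2]
          rcases (hf f).2.2 j with h3 | h3 <;> rcases hlpm (a f j * n + b f j) with h4 | h4 <;>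
            rw [h3, h4] at h1 ⊢
          · exact absurd rfl h1
          · norm_num
          · norm_num
          · exact absurd rfl h1
      · rw [if_neg hfull]
        have h2 : Pool.Agent.H569.SS.FF (a f) (b f) n = chowla (a f) (b f) n := rfl
        rw [h2]
        have h3 : chowla (a f) (b f) n = 1 ∨ chowla (a f) (b f) n = -1 :=
          Pool.Agent.H569.SS.FF_pm (a f) (b f) n
        have h4 : ∏ j, σ f j = 1 ∨ ∏ j, σ f j = -1 := by
          have h5 := hσp f
          exact (abs_eq zero_le_one).1 h5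
        by_cases h1 : chowla (a f) (b f) n = ∏ j, σ f j
        · rw [if_pos ⟨h1, fun h5 => absurd h5 hfull⟩, h1]
          rcases h4 with h5 | h5 <;> rw [h5] <;> norm_num
        · rw [if_neg fun h5 => h1 h5.1]
          rcases h3 with h3 | h3 <;> rcases h4 with h4 | h4 <;> rw [h3, h4] at h1 ⊢
          · exact absurd rfl h1
          · norm_num
          · norm_num
          · exact absurd rfl h1
    have hrho : ∀ f, 0 ≤ rho (k f) ∧ rho (k f) ≤ 1 := by
      intro f
      obtain ⟨h1, h2⟩ := Pool.Agent.H569.SS.rh_le (hf f).1.1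
      refine ⟨h1, le_trans h2 ?_⟩
      have h3 : (0 : ℝ) ≤ 1 / 2 ^ (k f) := by positivity
      linarith
    have hrows : ∀ f, 2 ≤ rows (full f) (k f) := by
      intro f
      unfold rows
      split_ifs
      · calc (2 : ℝ) = 2 ^ 1 := (pow_one _).symm
          _ ≤ 2 ^ (k f) := pow_le_pow_right₀ (by norm_num) (hf f).1.1
      · exact le_rfl
    obtain ⟨N₀, hN₀⟩ := Pool.Agent.H569.SS.systems_abs E m s t g
      (fun f => (1 - rho (k f)) / rows (full f) (k f)) (fun f => (1 + rho (k f)) / rows (full f) (k f))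
      (fun f n => by rw [hval]; split_ifs <;> norm_num)
      (fun f => by
        have h1 := hrho f
        have h2 := hrows f
        constructor
        · exact div_nonneg (by linarith [h1.2]) (by linarith)
        · rw [div_le_one (by linarith)]
          linarith [h1.2]) hL ε hε
    refine ⟨N₀, fun N hN hNE c γ A hA hpp hr => ?_⟩
    have h1 := hN₀ N hN hNE c γ A hA hpp hr
    have h2 : ∑ x ∈ Fintype.piFinset A, ∏ f, g f (Pool.Agent.H569.SS.psi (c f) (γ f) x).toNat =
        ((hits full k a b σ c γ A).card : ℝ) := by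
      unfold hits
      rw [card_filter, Nat.cast_sum]
      refine sum_congr rfl fun x _ => ?_
      have h3 : ∀ f, Pool.Agent.H569.SS.psi (c f) (γ f) x = form (c f) (γ f) x := fun f => rfl
      simp only [h3, hval]
      split_ifs with h4
      · rw [Nat.cast_one]
        exact prod_eq_one fun f _ => if_pos (h4 f)
      · push Not at h4
        obtain ⟨f, h4⟩ := h4
        rw [Nat.cast_zero]
        refine prod_eq_zero (mem_univ f) (if_neg fun h5 => ?_)
        obtain ⟨h6, j, h7⟩ := h4 h5.1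
        exact h7 (h5.2 h6 j)
    rw [h2] at h1
    exact h1

end Pool.Agent.Results.MP_a14ce1_nt.SystemsInDenseSets
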